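import Pool.Agent.W23.DC.All

/-!
Almost prime values of `N - p` for `p` in an arbitrary dense set of primes: boundedly many
exceptional `N` in the Goldbach range `|N| ≤ 2X`.
-/

set_option autoImplicit false

namespace Pool.Agent.Results.MP_967f73_nt.DenseSetsAlmostPrime

/-- the `p ∈ A` such that `|N - p| = m s` with `m ≤ X^ε` and `s` a prime or a product of two
primes, all prime factors of `s` being larger than `X^(1/7)` -/
def good (A : Finset ℕ) (N : ℤ) (X : ℕ) (ε : ℝ) : Set ℕ :=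
  {p : ℕ | p ∈ A ∧ ∃ m s : ℕ, (N - (p : ℤ)).natAbs = m * s ∧ (m : ℝ) ≤ (X : ℝ) ^ ε ∧
    (s.Prime ∨ ∃ q₁ q₂ : ℕ, q₁.Prime ∧ q₂.Prime ∧ s = q₁ * q₂) ∧
    ∀ q : ℕ, q.Prime → q ∣ s → (X : ℝ) ^ (1 / 7 : ℝ) < q}

/-- For all `δ, ε > 0` there are `c > 0` and `K` such that, for every `X ≥ 2` and every set `A` of
primes up to `X` with at least `δ X / log X` elements, for all but at most `K` of the integers `N`
with `|N| ≤ 2X` at least `c |A|` of the `p ∈ A` are such that `|N - p| = m s` with `m ≤ X^ε` and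
`s` a product of one or two primes larger than `X^(1/7)`. -/
theorem result (δ ε : ℝ) (hδ : 0 < δ) (hε : 0 < ε) :
    ∃ (c : ℝ) (K : ℕ), 0 < c ∧ ∀ X : ℕ, 2 ≤ X → ∀ A : Finset ℕ, (∀ p ∈ A, p.Prime ∧ p ≤ X) →
      δ * X / Real.log X ≤ A.card →
      {N : ℤ | |N| ≤ 2 * X ∧ ((good A N X ε).ncard : ℝ) < c * A.card}.ncard ≤ K := by
  classical
  obtain ⟨c, K, hc, h⟩ := Pool.Agent.W23.DC.dense_almost_prime δ ε hδ hε
  refine ⟨c, K, hc, ?_⟩
  intro X hX A hA hAc
  refine le_trans ?_ (h X hX A hA hAc)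
  refine le_trans (Set.ncard_le_ncard ?_ (Finset.finite_toSet _))
    (le_of_eq (Set.ncard_coe_finset _))
  · rintro N ⟨h1, h2⟩
    rw [Finset.mem_coe, Finset.mem_filter, Finset.mem_Icc]
    refine ⟨abs_le.1 h1, lt_of_le_of_lt ?_ h2⟩
    rw [← Set.ncard_coe_finset]
    have hfin : (good A N X ε).Finite := A.finite_toSet.subset fun p hp => hp.1
    have hsub : ((A.filter (fun p : ℕ =>
        ∃ m s : ℕ, (N - p).natAbs = m * s ∧ (m : ℝ) ≤ (X : ℝ) ^ ε ∧ 1 < s ∧
          s.primeFactorsList.length ≤ 2 ∧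
          ∀ q ∈ s.primeFactors, (X : ℝ) ^ (1 / 7 : ℝ) < q) : Finset ℕ) : Set ℕ) ⊆
        good A N X ε := by
      intro p hp
      rw [Finset.mem_coe, Finset.mem_filter] at hp
      obtain ⟨hpA, m, s, e1, e2, e3, e4, e5⟩ := hp
      refine ⟨hpA, m, s, e1, e2, ?_, fun q hq hqs =>
        e5 q (Nat.mem_primeFactors.2 ⟨hq, hqs, by omega⟩)⟩
      have hprod := Nat.prod_primeFactorsList (show s ≠ 0 by omega)
      have hpr : ∀ q ∈ s.primeFactorsList, q.Prime := fun q hq => Nat.prime_of_mem_primeFactorsList hq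
      match hL : s.primeFactorsList, e4 with
      | [], _ =>
        rw [hL] at hprod
        simp at hprod
        omega
      | [q], _ =>
        left
        rw [hL] at hprod hpr
        have : q = s := by simpa using hprod
        rw [← this]
        exact hpr q (by simp)
      | [q₁, q₂], _ =>
        right
        rw [hL] at hprod hpr
        refine ⟨q₁, q₂, hpr q₁ (by simp), hpr q₂ (by simp), ?_⟩
        rw [← hprod]
        simp
      | _ :: _ :: _ :: _, e4 =>
        simp at e4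
    exact_mod_cast Set.ncard_le_ncard hsub hfin

end Pool.Agent.Results.MP_967f73_nt.DenseSetsAlmostPrime
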