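import Pool.Agent.W23.DSd

/-!
Large prime factors of `N - p` for `p` in an arbitrary dense set of primes: boundedly many
exceptional `N` in the Goldbach range `|N| ≤ 2X`.
-/

set_option autoImplicit false

namespace Pool.Agent.Results.MP_967f73_nt.DenseSetsLargePrimeFactor

/-- the `p ∈ A`, `p ≠ N`, such that `N - p` has a prime factor `q > y` -/
def good (A : Finset ℕ) (N : ℤ) (y : ℝ) : Set ℕ :=
  {p : ℕ | p ∈ A ∧ (p : ℤ) ≠ N ∧ ∃ q : ℕ, q.Prime ∧ y < (q : ℝ) ∧ (q : ℤ) ∣ N - p}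

/-- For `δ > 0` and `β < 1 - (13/27) exp(-13δ/54)` (for `δ = 1`: every `β < 0.6215`) there are
`c > 0` and `K` such that, for every `X ≥ 2` and every set `A` of primes up to `X` with at least
`δ X / log X` elements, for all but at most `K` of the integers `N` with `|N| ≤ 2X` at least
`c |A|` of the `p ∈ A` are such that `N - p` has a prime factor larger than `X^β`. -/
theorem result (δ β : ℝ) (hδ : 0 < δ) (hβ : β < 1 - 13 / 27 * Real.exp (-(13 * δ / 54))) :
    ∃ c K : ℝ, 0 < c ∧ ∀ X : ℕ, 2 ≤ X → ∀ A : Finset ℕ, (∀ p ∈ A, p.Prime ∧ p ≤ X) →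
      δ * (X / Real.log X) ≤ A.card →
      ({N : ℤ | |N| ≤ 2 * X ∧ ((good A N ((X : ℝ) ^ β)).ncard : ℝ) < c * A.card}.ncard : ℝ) ≤
        K := by
  classical
  set β' := max β (14 / 27) with hβ'
  have hβ'1 : β' < 1 - 13 / 27 * Real.exp (-(13 * δ / 54)) := by
    apply max_lt hβ
    have : Real.exp (-(13 * δ / 54)) < 1 := by
      rw [Real.exp_lt_one_iff]
      linarith
    linarith
  obtain ⟨c, K, hc, X₀, h⟩ := Pool.Agent.W23.DS.dense_large δ β' hδ (le_max_right _ _) hβ'1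
  refine ⟨c, max K (4 * X₀ + 1), hc, ?_⟩
  intro X hX A hA hAc
  have hgood : ∀ N : ℤ, good A N ((X : ℝ) ^ β) =
      (Pool.Agent.W23.DS.big A N ((X : ℝ) ^ β) : Set ℕ) := by
    intro N
    ext p
    rw [Finset.mem_coe, Pool.Agent.W23.DS.mem_big]
    rfl
  have hset : {N : ℤ | |N| ≤ 2 * X ∧ ((good A N ((X : ℝ) ^ β)).ncard : ℝ) < c * A.card} =
      ((Finset.Icc (-(2 * X : ℤ)) (2 * X)).filter (fun N : ℤ =>
        ((Pool.Agent.W23.DS.big A N ((X : ℝ) ^ β)).card : ℝ) < c * A.card) : Set ℤ) := by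
    ext N
    rw [Finset.coe_filter, Set.mem_setOf_eq, Set.mem_setOf_eq, Finset.mem_Icc, abs_le, hgood,
      Set.ncard_coe_finset]
  rw [hset, Set.ncard_coe_finset]
  rcases le_or_gt X₀ X with hX₀ | hX₀
  · refine le_trans ?_ ((h X hX₀ A hA hAc).trans (le_max_left _ _))
    have hsub : (Finset.Icc (-(2 * X : ℤ)) (2 * X)).filter (fun N : ℤ =>
        ((Pool.Agent.W23.DS.big A N ((X : ℝ) ^ β)).card : ℝ) < c * A.card) ⊆
        (Finset.Icc (-(2 * X : ℤ)) (2 * X)).filter (fun N : ℤ =>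
        ((Pool.Agent.W23.DS.big A N ((X : ℝ) ^ β')).card : ℝ) < c * A.card) := by
      intro N hN
      rw [Finset.mem_filter] at hN ⊢
      refine ⟨hN.1, lt_of_le_of_lt ?_ hN.2⟩
      have h1 : (X : ℝ) ^ β ≤ (X : ℝ) ^ β' := by
        apply Real.rpow_le_rpow_of_exponent_le _ (le_max_left _ _)
        exact_mod_cast (by omega : 1 ≤ X)
      exact_mod_cast Finset.card_le_card (Pool.Agent.W23.DS.big_mono h1)
    exact_mod_cast Finset.card_le_card hsub
  · refine le_trans ?_ (le_max_right _ _)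
    have h1 := Finset.card_filter_le (Finset.Icc (-(2 * X : ℤ)) (2 * X)) (fun N : ℤ =>
        ((Pool.Agent.W23.DS.big A N ((X : ℝ) ^ β)).card : ℝ) < c * A.card)
    rw [Int.card_Icc] at h1
    have h2 : ((2 * X : ℤ) + 1 - (-(2 * X : ℤ))).toNat = 4 * X + 1 := by omega
    rw [h2] at h1
    have h3 : (4 * X + 1 : ℕ) ≤ 4 * X₀ + 1 := by omega
    exact_mod_cast h1.trans h3

end Pool.Agent.Results.MP_967f73_nt.DenseSetsLargePrimeFactor
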