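import Mathlib
import Pool.Agent.W218.SI.Dense

set_option autoImplicit false

/-!
The binary Goldbach problem in totient form, for `k` arguments `n_1, ..., n_k` taken from `k` arbitrary short intervals
`(M_i, M_i + H_i]`, `H_i ≥ M_i^θ`, with solutions `x_i = n_i - q`, where `q` runs through an arbitrary set of primes of
positive relative density among the primes up to `x`, and `x` may be as small as about the product of the `log M_i`.
-/

namespace Pool.Agent.Results.MP_967f73_nt.ShortIntervalTuples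

open Finset

/-- `x` is an integral solution of the system for `n` -/
def Sol (n : ℕ) (x : ℤ) : Prop :=
  1 ≤ (n : ℤ) - x ∧ 1 ≤ (n : ℤ) + x ∧ Nat.totient ((n : ℤ) - x).toNat + 1 = ((n : ℤ) - x).toNat ∧
    Nat.totient ((n : ℤ) + x).toNat + 1 = ((n : ℤ) + x).toNat

open Classical in
/-- the number of `q ∈ T` such that `n_i - q` is a solution for `n_i`, for every `i` -/
noncomputable def P {k : ℕ} (T : Finset ℕ) (n : Fin k → ℕ) : ℕ :=
  (T.filter (fun q : ℕ => ∀ i, Sol (n i) ((n i : ℤ) - q))).card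

lemma totient_iff (m : ℕ) : Nat.totient m + 1 = m ↔ m.Prime := by
  constructor
  · intro h
    have hm : 0 < m := by omega
    rw [← Nat.totient_eq_iff_prime hm]
    omega
  · intro h
    rw [Nat.totient_prime h]
    have := h.pos
    omega

lemma sol_iff {n q : ℕ} (hq : q.Prime) (hqn : q ≤ n) (hn : 1 ≤ n) : Sol n ((n : ℤ) - q) ↔ (2 * n - q).Prime := by
  unfold Sol
  have e1 : ((n : ℤ) - ((n : ℤ) - q)).toNat = q := by omega
  have e2 : ((n : ℤ) + ((n : ℤ) - q)).toNat = 2 * n - q := by omega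
  rw [e1, e2, totient_iff, totient_iff]
  have := hq.pos
  constructor
  · intro h; exact h.2.2.2
  · intro h; exact ⟨by omega, by omega, hq, h⟩

open Classical in
theorem result : ∃ θ : ℝ, 0 < θ ∧ θ < 1 ∧ ∀ k : ℕ, 1 ≤ k → ∀ c ρ : ℝ, 0 < c → 0 < ρ →
    ∃ κ : ℝ, 0 < κ ∧ ∃ M₀ : ℕ, ∀ M H : Fin k → ℕ, (∀ i, M₀ ≤ M i) → (∀ i, (M i : ℝ) ^ θ ≤ H i) →
    (∀ i, H i ≤ M i) → ∀ x : ℕ, c * ∏ i, Real.log (M i) ≤ x / Real.log x → (∀ i, x ≤ M i) →
    ∀ T : Finset ℕ, T ⊆ (Icc 3 x).filter Nat.Prime → ρ * (x / Real.log x) ≤ T.card →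
    κ * ∏ i, (H i : ℝ) ≤ (((Fintype.piFinset (fun i : Fin k => Ioc (M i) (M i + H i))).filter (fun n =>
      κ * (T.card / ∏ i, Real.log (M i)) ≤ P T n ∧
      κ * P T n ≤ T.card / ∏ i, Real.log (M i))).card : ℝ) := by
  obtain ⟨δ, hδ, hδ1, hmain⟩ := Pool.Agent.W218.SI.shortP
  refine ⟨1 - δ, by linarith, by linarith, fun k hk c ρ hc hρ => ?_⟩
  obtain ⟨κ, hκ, X₀, hX₀, h⟩ := hmain k hk (fun _ => -1) (fun _ => Or.inr rfl) (fun _ => 1) (fun _ => le_rfl)
    (c / 2 ^ k) ρ (by positivity) hρ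
  refine ⟨κ / 2 ^ k, by positivity, X₀, ?_⟩
  intro M H hM hMH hHM x hcx hxM T hT hTc
  have hM4 : ∀ i, 4 ≤ M i := fun i => hX₀.trans (hM i)
  have hlM : ∀ i, 0 < Real.log (M i) := fun i => Real.log_pos (by
    have := hM4 i
    exact_mod_cast (by omega : 1 < M i))
  have hl2 : ∀ i, Real.log ((2 * M i : ℕ) : ℝ) ≤ 2 * Real.log (M i) := by
    intro i
    have h4 : (4 : ℝ) ≤ M i := by exact_mod_cast hM4 i
    have h1 : Real.log ((2 * M i : ℕ) : ℝ) ≤ Real.log ((M i : ℝ) ^ 2) := by
      apply Real.log_le_log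
      · push_cast; linarith
      · push_cast; nlinarith
    rw [Real.log_pow] at h1
    push_cast at h1 ⊢
    exact h1
  have hl1 : ∀ i, Real.log (M i) ≤ Real.log ((2 * M i : ℕ) : ℝ) := by
    intro i
    have h4 : (4 : ℝ) ≤ M i := by exact_mod_cast hM4 i
    apply Real.log_le_log (by linarith)
    push_cast; linarith
  set L : ℝ := ∏ i, Real.log (M i) with hL
  set L2 : ℝ := ∏ i, Real.log ((2 * M i : ℕ) : ℝ) with hL2
  have hL0 : 0 < L := prod_pos fun i _ => hlM i
  have hLL2 : L ≤ L2 := prod_le_prod (fun i _ => (hlM i).le) fun i _ => hl1 i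
  have hL20 : 0 < L2 := lt_of_lt_of_le hL0 hLL2
  have hL2L : L2 ≤ 2 ^ k * L := by
    calc L2 ≤ ∏ i : Fin k, (2 * Real.log (M i)) := prod_le_prod (fun i _ => (hlM i).le.trans (hl1 i)) fun i _ => hl2 i
      _ = _ := by rw [prod_mul_distrib, prod_const, card_univ, Fintype.card_fin]
  have h1 := h (fun i => 2 * M i) (fun i => 2 * H i) (fun i => by have := hM i; omega) (by
      intro i
      have h4 : (4 : ℝ) ≤ M i := by exact_mod_cast hM4 i
      push_cast
      rw [Real.mul_rpow (by norm_num) (by linarith)]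
      have h2 : (2 : ℝ) ^ (1 - δ) ≤ 2 := by
        calc (2 : ℝ) ^ (1 - δ) ≤ 2 ^ (1 : ℝ) := Real.rpow_le_rpow_of_exponent_le (by norm_num) (by linarith)
          _ = 2 := Real.rpow_one _
      have h3 := hMH i
      have h5 : (0 : ℝ) ≤ (M i : ℝ) ^ (1 - δ) := by positivity
      calc (2 : ℝ) ^ (1 - δ) * (M i : ℝ) ^ (1 - δ) ≤ 2 * (M i : ℝ) ^ (1 - δ) := by gcongr
        _ ≤ 2 * H i := by gcongr)
    (fun i => by have := hHM i; omega) x (by
      calc c / 2 ^ k * L2 ≤ c / 2 ^ k * (2 ^ k * L) := by gcongr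
        _ = c * L := by field_simp
        _ ≤ _ := hcx)
    (fun i => by have := hxM i; rw [pow_one]; omega) T
    (fun p hp => by
      have h2 := hT hp
      rw [mem_filter, mem_Icc] at h2 ⊢
      exact ⟨⟨by omega, h2.1.2⟩, h2.2⟩) hTc
  have hTpos : (0 : ℝ) < T.card := by
    have h2 : 0 < (x : ℝ) / Real.log x := lt_of_lt_of_le (by positivity) hcx
    exact lt_of_lt_of_le (by positivity) hTc
  have hH0 : (0 : ℝ) ≤ ∏ i, (H i : ℝ) := prod_nonneg fun i _ => Nat.cast_nonneg _
  have h2 : κ / 2 ^ k * ∏ i, (H i : ℝ) ≤ κ * ∏ i, ((2 * H i : ℕ) : ℝ) := by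
    apply mul_le_mul
    · apply div_le_self hκ.le
      exact one_le_pow₀ (by norm_num)
    · apply prod_le_prod (fun i _ => Nat.cast_nonneg _)
      intro i _
      push_cast
      have : (0 : ℝ) ≤ H i := Nat.cast_nonneg _
      linarith
    · exact hH0
    · exact hκ.le
  refine h2.trans (h1.trans ?_)
  have key : ∀ b ∈ (Fintype.piFinset (fun i : Fin k => Ioc (2 * M i) (2 * M i + 2 * H i))).filter (fun b =>
      κ * T.card / L2 ≤ Pool.Agent.W218.PF.primeS (Pool.Agent.W218.SI.mon (fun _ => -1) (fun _ => 1)) b T ∧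
      κ * Pool.Agent.W218.PF.primeS (Pool.Agent.W218.SI.mon (fun _ => -1) (fun _ => 1)) b T ≤ T.card / L2),
      (∀ i, b i = 2 * (b i / 2)) ∧
      Pool.Agent.W218.PF.primeS (Pool.Agent.W218.SI.mon (fun _ => -1) (fun _ => 1)) b T =
        P T (fun i => b i / 2) := by
    intro b hb
    rw [mem_filter] at hb
    obtain ⟨hbox, hb1, _⟩ := hb
    have hbi := fun i => mem_Ioc.1 (Fintype.mem_piFinset.1 hbox i)
    have hval : ∀ q : ℕ, ∀ i, (Pool.Agent.W218.SI.mon (fun _ : Fin k => (-1 : ℤ)) (fun _ => 1) i q + b i).toNat =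
        b i - q := by
      intro q i
      change ((-1 : ℤ) * (q : ℤ) ^ 1 + (b i : ℤ)).toNat = b i - q
      rw [pow_one]
      omega
    have hpos : (0 : ℝ) < Pool.Agent.W218.PF.primeS (Pool.Agent.W218.SI.mon (fun _ : Fin k => (-1 : ℤ)) (fun _ => 1)) b T :=
      lt_of_lt_of_le (by positivity) hb1
    have hpos' : 0 < Pool.Agent.W218.PF.primeS (Pool.Agent.W218.SI.mon (fun _ : Fin k => (-1 : ℤ)) (fun _ => 1)) b T := by
      exact_mod_cast hpos
    unfold Pool.Agent.W218.PF.primeS at hpos'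
    rw [card_pos] at hpos'
    obtain ⟨q, hq⟩ := hpos'
    rw [mem_filter] at hq
    have hq1 := hT hq.1
    rw [mem_filter, mem_Icc] at hq1
    have hev : ∀ i, b i = 2 * (b i / 2) := by
      intro i
      have h3 := hq.2 i
      rw [hval] at h3
      have h4 := (hbi i).1
      have h5 := hxM i
      have h6 : (b i - q) % 2 = 1 := by
        rcases h3.eq_two_or_odd with h7 | h7
        · have := hM4 i
          omega
        · exact h7
      have h8 : q % 2 = 1 := by
        rcases hq1.2.eq_two_or_odd with h7 | h7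
        · omega
        · exact h7
      omega
    refine ⟨hev, ?_⟩
    unfold Pool.Agent.W218.PF.primeS P
    congr 1
    apply filter_congr
    intro p hp
    have hp1 := hT hp
    rw [mem_filter, mem_Icc] at hp1
    apply forall_congr'
    intro i
    have h4 := (hbi i).1
    have h5 := hxM i
    have h6 := hev i
    rw [hval]
    change (b i - p).Prime ↔ Sol (b i / 2) (((b i / 2 : ℕ) : ℤ) - p)
    have e : 2 * (b i / 2) - p = b i - p := by omega
    rw [sol_iff hp1.2 (by omega) (by omega), e]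
  have hcard := card_le_card_of_injOn
    (s := (Fintype.piFinset (fun i : Fin k => Ioc (2 * M i) (2 * M i + 2 * H i))).filter (fun b =>
      κ * T.card / L2 ≤ Pool.Agent.W218.PF.primeS (Pool.Agent.W218.SI.mon (fun _ => -1) (fun _ => 1)) b T ∧
      κ * Pool.Agent.W218.PF.primeS (Pool.Agent.W218.SI.mon (fun _ => -1) (fun _ => 1)) b T ≤ T.card / L2))
    (t := (Fintype.piFinset (fun i : Fin k => Ioc (M i) (M i + H i))).filter (fun n =>
      κ / 2 ^ k * (T.card / L) ≤ P T n ∧ κ / 2 ^ k * P T n ≤ T.card / L))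
    (fun b i => b i / 2) (by
      intro b hb
      have hb' := mem_coe.1 hb
      obtain ⟨hev, hP⟩ := key b hb'
      rw [mem_filter] at hb'
      obtain ⟨hbox, hb1, hb2⟩ := hb'
      rw [hP] at hb1 hb2
      have hbi := fun i => mem_Ioc.1 (Fintype.mem_piFinset.1 hbox i)
      apply mem_coe.2
      rw [mem_filter]
      refine ⟨?_, ?_, ?_⟩
      · rw [Fintype.mem_piFinset]
        intro i
        have h3 := hbi i
        have h4 := hev i
        rw [mem_Ioc]
        show M i < b i / 2 ∧ b i / 2 ≤ M i + H i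
        omega
      · refine le_trans ?_ hb1
        rw [div_mul_div_comm]
        exact div_le_div_of_nonneg_left (mul_nonneg hκ.le (Nat.cast_nonneg _)) hL20 hL2L
      · calc κ / 2 ^ k * (P T fun i => b i / 2) ≤ κ * (P T fun i => b i / 2) := by
              apply mul_le_mul_of_nonneg_right _ (Nat.cast_nonneg _)
              apply div_le_self hκ.le
              exact one_le_pow₀ (by norm_num)
          _ ≤ T.card / L2 := hb2
          _ ≤ T.card / L := div_le_div_of_nonneg_left (Nat.cast_nonneg _) hL0 hLL2)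
    (by
      intro b hb b' hb' hbb
      obtain ⟨hev, _⟩ := key b (mem_coe.1 hb)
      obtain ⟨hev', _⟩ := key b' (mem_coe.1 hb')
      funext i
      have h3 := congrFun hbb i
      simp only at h3
      rw [hev i, hev' i, h3])
  exact_mod_cast hcard

end Pool.Agent.Results.MP_967f73_nt.ShortIntervalTuples
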