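import Pool.Agent.W23.UBe

/-!
Upper bound with the constant `15/4` for the number of Goldbach representations, uniformly for the
first prime in long intervals, for all even numbers up to `X` outside a set of at most
`K (log X)^B` elements.
-/

set_option autoImplicit false

namespace Pool.Agent.Results.MP_967f73_nt.UpperBoundFewExceptions

open Finset

/-- the number of primes `p`, `y₁ < p ≤ y₂`, such that `n = p + q` with a prime `q` -/
noncomputable def reps (n : ℕ) (y₁ y₂ : ℝ) : ℕ :=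
  {p : ℕ | p.Prime ∧ (∃ q : ℕ, q.Prime ∧ p + q = n) ∧ y₁ < (p : ℝ) ∧ (p : ℝ) ≤ y₂}.ncard

/-- the twin prime constant `∏_{p > 2} (1 - 1/(p-1)²)` -/
noncomputable def twinPrimeConstant : ℝ :=
  ∏' p : Nat.Primes, if (p : ℕ) = 2 then 1 else 1 - 1 / ((p : ℝ) - 1) ^ 2

/-- the singular series `2 C₂ ∏_{p | n, p > 2} (p-1)/(p-2)` of an even number -/
noncomputable def singularSeries (n : ℕ) : ℝ :=
  2 * twinPrimeConstant *
    ∏ p ∈ n.primeFactors.filter (fun p => 2 < p), (((p : ℝ) - 1) / ((p : ℝ) - 2))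

/-- For every `ε > 0` and `A` there are `B` and `K` such that for all `X ≥ 3`, for all but at most
`K (log X)^B` of the even numbers `4 ≤ n ≤ X`: for all `2 ≤ y₁ < y₂ ≤ n` with
`y₂ - y₁ ≥ n / (log n)^A` the number of primes `p`, `y₁ < p ≤ y₂`, for which `n - p` is a prime is
at most `(15/4 + ε) S(n) (∫_{y₁}^{y₂} dt / log t) / log n`. -/
theorem result (ε : ℝ) (hε : 0 < ε) (A : ℕ) : ∃ (B : ℕ) (K : ℝ), ∀ X : ℕ, 3 ≤ X →
    ({n : ℕ | Even n ∧ 4 ≤ n ∧ n ≤ X ∧ ∃ y₁ y₂ : ℝ, 2 ≤ y₁ ∧ y₁ + n / Real.log n ^ A ≤ y₂ ∧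
      y₂ ≤ n ∧ (15 / 4 + ε) * singularSeries n * (∫ t in y₁..y₂, 1 / Real.log t) / Real.log n <
        reps n y₁ y₂}.ncard : ℝ) ≤ K * Real.log X ^ B := by
  classical
  have hε' : 0 < min ε 1 := by positivity
  obtain ⟨B, C, X₀, hC, h⟩ := Pool.Agent.W23.UB.block (min ε 1) hε' (min_le_right _ _) A
  obtain ⟨K, hK⟩ := Pool.Agent.W23.UB.dyadic (P := Pool.Agent.W23.UB.Bad (min ε 1) A)
    (C := C) (B := B) (X₀ := X₀) hC (by
      intro X hX
      refine le_trans (le_of_eq ?_) (h X hX)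
      rw [← Set.ncard_coe_finset]
      congr 2
      ext n
      simp only [Finset.coe_filter, Finset.mem_Icc, Set.mem_setOf_eq]
      tauto)
  refine ⟨B + 1, K, ?_⟩
  intro X hX
  refine le_trans ?_ (hK X hX)
  rw [← Set.ncard_coe_finset]
  have hsub : {n : ℕ | Even n ∧ 4 ≤ n ∧ n ≤ X ∧ ∃ y₁ y₂ : ℝ, 2 ≤ y₁ ∧
      y₁ + n / Real.log n ^ A ≤ y₂ ∧
      y₂ ≤ n ∧ (15 / 4 + ε) * singularSeries n * (∫ t in y₁..y₂, 1 / Real.log t) / Real.log n <
        reps n y₁ y₂} ⊆
      ((Icc 1 X).filter (fun n => Pool.Agent.W23.UB.Bad (min ε 1) A n) : Finset ℕ) := by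
    rintro n ⟨hev, hn4, hnX, y₁, y₂, hy1, hy12, hy2, hbad⟩
    rw [Finset.mem_coe, mem_filter, mem_Icc]
    refine ⟨⟨by omega, hnX⟩, hev, hn4, y₁, y₂, hy1, hy12, hy2, ?_⟩
    have hn4' : (4 : ℝ) ≤ n := by exact_mod_cast hn4
    have hln : 0 < Real.log n := Real.log_pos (by linarith)
    have hy12' : y₁ ≤ y₂ := by
      have : 0 ≤ (n : ℝ) / Real.log n ^ A := by positivity
      linarith
    have hsing : singularSeries n = Pool.Agent.W23.UB.sing n := rfl
    have hint : ∀ a b : ℝ, 2 ≤ a → 2 ≤ b → IntervalIntegrable (fun t => 1 / Real.log t)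
        MeasureTheory.volume a b := by
      intro a b ha hb
      apply ContinuousOn.intervalIntegrable
      intro t ht
      have ht2 : 2 ≤ t := (le_min ha hb).trans ht.1
      have hl : Real.log t ≠ 0 := (Real.log_pos (by linarith)).ne'
      exact (continuousAt_const.div (Real.continuousAt_log (by linarith)) hl).continuousWithinAt
    have hli : (∫ t in y₁..y₂, 1 / Real.log t) =
        Pool.Agent.W23.UB.li y₂ - Pool.Agent.W23.UB.li y₁ := by
      unfold Pool.Agent.W23.UB.li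
      rw [intervalIntegral.integral_interval_sub_left (hint 2 y₂ le_rfl (by linarith))
        (hint 2 y₁ le_rfl hy1)]
    have hreps : reps n y₁ y₂ = Pool.Agent.W23.UB.rr n y₁ y₂ := by
      unfold reps Pool.Agent.W23.UB.rr
      rw [← Set.ncard_coe_finset]
      congr 1
      ext p
      rw [Finset.mem_coe, mem_filter, Pool.Agent.W23.UB.mem_PW, Set.mem_setOf_eq]
      constructor
      · rintro ⟨h1, ⟨q, h2, h3⟩, h4, h5⟩
        refine ⟨⟨h1, h4, h5⟩, ?_⟩
        have : n - p = q := by omega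
        rw [this]
        exact h2
      · rintro ⟨⟨h1, h4, h5⟩, h2⟩
        refine ⟨h1, ⟨n - p, h2, ?_⟩, h4, h5⟩
        have := h2.pos
        omega
    rw [hsing, hli, hreps] at hbad
    refine lt_of_le_of_lt ?_ hbad
    have hli0 : 0 ≤ Pool.Agent.W23.UB.li y₂ - Pool.Agent.W23.UB.li y₁ := by
      refine le_trans ?_ (Pool.Agent.W23.UB.li_diff_ge hy1 hy12')
      have : 0 ≤ Real.log y₂ := Real.log_nonneg (by linarith)
      exact div_nonneg (by linarith) this
    have hs0 : 0 ≤ Pool.Agent.W23.UB.sing n := by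
      unfold Pool.Agent.W23.UB.sing
      rw [Pool.Agent.W23.UB.prod_eq]
      have h1 := Pool.Agent.W23.UB.C2_pos
      have h2 := Pool.Agent.W23.UB.one_le_prod n
      have h3 : 0 ≤ ∏ p ∈ n.primeFactors.filter (fun p => 2 < p), (1 + ((p : ℝ) - 2)⁻¹) := by
        linarith
      positivity
    apply div_le_div_of_nonneg_right _ hln.le
    apply mul_le_mul_of_nonneg_right _ hli0
    apply mul_le_mul_of_nonneg_right _ hs0
    have := min_le_left ε 1
    linarith
  have h1 := Set.ncard_le_ncard hsub (Finset.finite_toSet _)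
  exact_mod_cast h1

end Pool.Agent.Results.MP_967f73_nt.UpperBoundFewExceptions
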